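import Pool.Agent.P8H97.HR.Stm

/-! Project HR (MP_dd334f_gt), package A: 2x2 algebra of the hyperelliptic involution. -/

namespace P8H97.HR

open Matrix

namespace PartA

theorem EA (A B : M2) : (A * B - B * A) * A = A.adjugate * (A * B - B * A) := by
  ext i j
  fin_cases i <;> fin_cases j <;>
    simp [Matrix.adjugate_fin_two, Matrix.mul_apply, Fin.sum_univ_succ] <;> ring

theorem EB (A B : M2) : (A * B - B * A) * B = B.adjugate * (A * B - B * A) := by
  ext i j
  fin_cases i <;> fin_cases j <;>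
    simp [Matrix.adjugate_fin_two, Matrix.mul_apply, Fin.sum_univ_succ] <;> ring

theorem EE (A B : M2) : (A * B - B * A) * (A * B - B * A) = -(A * B - B * A).det • (1 : M2) := by
  ext i j
  fin_cases i <;> fin_cases j <;>
    simp [Matrix.det_fin_two, Matrix.mul_apply, Fin.sum_univ_succ] <;> ring

theorem detE (A B : M2) : (A * B - B * A).det =
    2 * A.det * B.det - (A * B * A.adjugate * B.adjugate).trace := by
  simp [Matrix.det_fin_two, Matrix.adjugate_fin_two, Matrix.trace, Matrix.mul_apply,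
    Fin.sum_univ_succ]
  ring

theorem CH (D : M2) : D * D = D.trace • D - D.det • (1 : M2) := by
  ext i j
  fin_cases i <;> fin_cases j <;>
    simp [Matrix.det_fin_two, Matrix.trace, Matrix.mul_apply, Fin.sum_univ_succ] <;> ring

theorem trE (A B : M2) : (A * B - B * A).trace = 0 := by
  simp [Matrix.trace, Matrix.mul_apply, Fin.sum_univ_succ]
  ring

theorem trAE (A B : M2) : (A * (A * B - B * A)).trace = 0 := by
  simp [Matrix.trace, Matrix.mul_apply, Fin.sum_univ_succ]
  ring

theorem trBE (A B : M2) : (B * (A * B - B * A)).trace = 0 := by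
  simp [Matrix.trace, Matrix.mul_apply, Fin.sum_univ_succ]
  ring

/-- the square of `D = A B E` -/
theorem DD (A B : M2) : (A * B * (A * B - B * A)) * (A * B * (A * B - B * A)) =
    -(A * B - B * A).det • (A * B * A.adjugate * B.adjugate) := by
  have h1 := EA A B
  have h2 := EB A B
  have h3 := EE A B
  set E := A * B - B * A with hE
  calc A * B * E * (A * B * E) = A * B * (E * A) * B * E := by noncomm_ring
    _ = A * B * A.adjugate * (E * B) * E := by rw [h1]; noncomm_ring
    _ = A * B * A.adjugate * B.adjugate * (E * E) := by rw [h2]; noncomm_ring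
    _ = _ := by rw [h3, Matrix.mul_smul, Matrix.mul_one]

/-- the facts about one commutator -/
theorem one_side (A B : SL2) (κ : M2) (hκ : κ = ((A * B * A⁻¹ * B⁻¹ : SL2) : M2))
    (hs : κ.trace - 2 ≠ 0) (hne : κ ≠ 1) :
    let E : M2 := (A : M2) * B - B * A
    E.det = -(κ.trace - 2) ∧ ∃ t : ℝ, t ≠ 0 ∧
      t • ((A : M2) * B * E) = (κ.trace - 2) • (κ - 1) := by
  intro E
  have hA : (A : M2).det = 1 := A.2
  have hB : (B : M2).det = 1 := B.2
  have hk : κ = (A : M2) * B * (A : M2).adjugate * (B : M2).adjugate := by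
    rw [hκ]
    simp [Matrix.SpecialLinearGroup.coe_mul, Matrix.SpecialLinearGroup.coe_inv]
  have hd : E.det = -(κ.trace - 2) := by
    have := detE (A : M2) B
    rw [hA, hB, ← hk] at this
    rw [this]; ring
  refine ⟨hd, ((A : M2) * B * E).trace, ?_, ?_⟩
  · intro h0
    have h1 := CH ((A : M2) * B * E)
    have h2 := DD (A : M2) B
    rw [← hk] at h2
    change (A : M2) * B * E * ((A : M2) * B * E) = -E.det • κ at h2
    rw [h0, zero_smul, zero_sub] at h1
    have h3 : ((A : M2) * B * E).det = E.det := by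
      rw [Matrix.det_mul, Matrix.det_mul, hA, hB, one_mul, one_mul]
    rw [h1, h3, hd] at h2
    apply hne
    have h4 : (κ.trace - 2) • κ = (κ.trace - 2) • (1 : M2) := by
      rw [neg_neg] at h2
      rw [← h2, neg_smul, neg_neg]
    have h5 := congrArg (fun X => (κ.trace - 2)⁻¹ • X) h4
    simpa [smul_smul, inv_mul_cancel₀ hs] using h5
  · have h1 := CH ((A : M2) * B * E)
    have h2 := DD (A : M2) B
    rw [← hk] at h2
    change (A : M2) * B * E * ((A : M2) * B * E) = -E.det • κ at h2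
    have h3 : ((A : M2) * B * E).det = E.det := by
      rw [Matrix.det_mul, Matrix.det_mul, hA, hB, one_mul, one_mul]
    rw [h2, h3, hd] at h1
    rw [neg_neg] at h1
    rw [smul_sub, h1, neg_smul]
    abel

end PartA

open PartA in
theorem part_A : S_A := by
  intro A1 B1 A2 B2 hrel htr
  set k1 : SL2 := A1 * B1 * A1⁻¹ * B1⁻¹ with hk1
  set k2 : SL2 := A2 * B2 * A2⁻¹ * B2⁻¹ with hk2
  have hk12 : k2 = k1⁻¹ := (inv_eq_of_mul_eq_one_right hrel).symm
  set κ : M2 := (k1 : M2) with hκ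
  set κ' : M2 := (k2 : M2) with hκ'
  have hadj : κ' = κ.adjugate := by
    rw [hκ', hk12, Matrix.SpecialLinearGroup.coe_inv]
  have hdet : κ.det = 1 := k1.2
  have htr' : κ'.trace = κ.trace := by
    rw [hadj, Matrix.adjugate_fin_two]
    simp [Matrix.trace, Fin.sum_univ_succ]
    ring
  have hs : κ.trace - 2 ≠ 0 := by
    intro h
    have : κ.trace = 2 := by linarith
    rw [this] at htr
    norm_num at htr
  have hne : κ ≠ 1 := by
    intro h
    apply hs
    rw [h]
    simp [Matrix.trace]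
  have hne' : κ' ≠ 1 := by
    intro h
    apply hs
    rw [← htr', h]
    simp [Matrix.trace]
  obtain ⟨d1, t1, ht1, e1⟩ := one_side A1 B1 κ rfl hs hne
  obtain ⟨d2, t2, ht2, e2⟩ := one_side A2 B2 κ' rfl (by rw [htr']; exact hs) hne'
  rw [htr'] at d2 e2
  set E1 : M2 := (A1 : M2) * B1 - B1 * A1 with hE1
  set E2 : M2 := (A2 : M2) * B2 - B2 * A2 with hE2
  have hA1 : (A1 : M2).det = 1 := A1.2
  have hB1 : (B1 : M2).det = 1 := B1.2
  have hA2 : (A2 : M2).det = 1 := A2.2
  have hB2 : (B2 : M2).det = 1 := B2.2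
  have q1 : E1 * E1 = -E1.det • (1 : M2) := EE A1 B1
  have q2 : E2 * E2 = -E2.det • (1 : M2) := EE A2 B2
  have hdE1 : E1.det ≠ 0 := by rw [d1]; exact neg_ne_zero.mpr hs
  have hdE2 : E2.det ≠ 0 := by rw [d2]; exact neg_ne_zero.mpr hs
  refine ⟨![(A1 : M2) * E1, E1, (B1 : M2) * E1, (A2 : M2) * E2, E2, (B2 : M2) * E2],
    ?_, ⟨-E1.det, ?_⟩, ⟨-E1.det, ?_⟩, ⟨-E2.det, ?_⟩, ⟨-E2.det, ?_⟩, ?_⟩
  · intro i
    fin_cases i
    · exact ⟨trAE _ _, by simp [Matrix.det_mul, hA1, hdE1]⟩
    · exact ⟨trE _ _, hdE1⟩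
    · exact ⟨trBE _ _, by simp [Matrix.det_mul, hB1, hdE1]⟩
    · exact ⟨trAE _ _, by simp [Matrix.det_mul, hA2, hdE2]⟩
    · exact ⟨trE _ _, hdE2⟩
    · exact ⟨trBE _ _, by simp [Matrix.det_mul, hB2, hdE2]⟩
  · change (A1 : M2) * E1 * E1 = _
    rw [Matrix.mul_assoc, q1, Matrix.mul_smul, Matrix.mul_one]
  · change (B1 : M2) * E1 * E1 = _
    rw [Matrix.mul_assoc, q1, Matrix.mul_smul, Matrix.mul_one]
  · change (A2 : M2) * E2 * E2 = _
    rw [Matrix.mul_assoc, q2, Matrix.mul_smul, Matrix.mul_one]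
  · change (B2 : M2) * E2 * E2 = _
    rw [Matrix.mul_assoc, q2, Matrix.mul_smul, Matrix.mul_one]
  · change ∃ s : ℝ, (A1 : M2) * E1 * E1 * ((B1 : M2) * E1) * ((A2 : M2) * E2) * E2 *
      ((B2 : M2) * E2) = s • (1 : M2)
    set D1 : M2 := (A1 : M2) * B1 * E1 with hD1
    set D2 : M2 := (A2 : M2) * B2 * E2 with hD2
    have h1 : (A1 : M2) * E1 * E1 * ((B1 : M2) * E1) * ((A2 : M2) * E2) * E2 *
        ((B2 : M2) * E2) = (E1.det * E2.det) • (D1 * D2) := by
      calc (A1 : M2) * E1 * E1 * ((B1 : M2) * E1) * ((A2 : M2) * E2) * E2 *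
          ((B2 : M2) * E2) = (A1 : M2) * (E1 * E1) * ((B1 : M2) * E1) *
            ((A2 : M2) * (E2 * E2)) * ((B2 : M2) * E2) := by
              simp only [Matrix.mul_assoc]
        _ = _ := by
          rw [q1, q2]
          simp only [Matrix.mul_smul, Matrix.smul_mul, Matrix.mul_one, smul_smul, hD1, hD2,
            Matrix.mul_assoc]
          congr 1
          ring
    have h2 : (t1 * t2) • (D1 * D2) = ((κ.trace - 2) ^ 2 * (2 - κ.trace)) • (1 : M2) := by
      have h3 : (t1 * t2) • (D1 * D2) = (t1 • D1) * (t2 • D2) := by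
        rw [Matrix.smul_mul, Matrix.mul_smul, smul_smul]
      rw [h3, e1, e2, Matrix.smul_mul, Matrix.mul_smul, smul_smul]
      have h4 : (κ - 1) * (κ' - 1) = (2 - κ.trace) • (1 : M2) := by
        have h5 : κ * κ' = 1 := by rw [hadj, Matrix.mul_adjugate, hdet, one_smul]
        have h6 : κ + κ' = κ.trace • (1 : M2) := by
          rw [hadj, Matrix.adjugate_fin_two]
          ext i j
          fin_cases i <;> fin_cases j <;> simp [Matrix.trace, Fin.sum_univ_succ] <;> ring
        have h7 : (κ - 1) * (κ' - 1) = κ * κ' - (κ + κ') + 1 := by noncomm_ring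
        rw [h7, h5, h6, sub_smul, two_smul]
        abel
      rw [h4, smul_smul]
      congr 1
      ring
    refine ⟨E1.det * E2.det * ((t1 * t2)⁻¹ * ((κ.trace - 2) ^ 2 * (2 - κ.trace))), ?_⟩
    rw [h1]
    have h8 : D1 * D2 = ((t1 * t2)⁻¹ * ((κ.trace - 2) ^ 2 * (2 - κ.trace))) • (1 : M2) := by
      have := congrArg (fun X => (t1 * t2)⁻¹ • X) h2
      simp only [smul_smul] at this
      rwa [inv_mul_cancel₀ (mul_ne_zero ht1 ht2), one_smul] at this
    rw [h8, smul_smul]

end P8H97.HR
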