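import Pool.Agent.P8H97.HR.Stm

/-! Project HR (MP_dd334f_gt), packages C and N: the hyperelliptic involution and simple closed
curves, group theory. -/

namespace P8H97.HR

namespace PartC

theorem cc_sq (i : Fin 6) : cc i * cc i = 1 := by
  have h : PresentedGroup.mk rels6 (FreeGroup.of i * FreeGroup.of i) = 1 :=
    PresentedGroup.one_of_mem (Or.inl ⟨i, rfl⟩)
  exact h

theorem cc_inv (i : Fin 6) : (cc i)⁻¹ = cc i := inv_eq_of_mul_eq_one_right (cc_sq i)

theorem cc_prod : cc 0 * cc 1 * cc 2 * cc 3 * cc 4 * cc 5 = 1 := by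
  have h : PresentedGroup.mk rels6 (FreeGroup.of 0 * FreeGroup.of 1 * FreeGroup.of 2 *
      FreeGroup.of 3 * FreeGroup.of 4 * FreeGroup.of 5) = 1 :=
    PresentedGroup.one_of_mem (Or.inr rfl)
  exact h

theorem cc_sq' (i : Fin 6) (x : Orb) : cc i * (cc i * x) = x := by
  rw [← mul_assoc, cc_sq, one_mul]

/-- the second half of the product of the generators -/
theorem cc_345 : cc 3 * (cc 4 * cc 5) = cc 2 * (cc 1 * cc 0) := by
  have h := cc_prod
  have h2 : cc 0 * cc 1 * cc 2 * (cc 3 * (cc 4 * cc 5)) = 1 := by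
    rw [← h]; simp only [mul_assoc]
  have h3 := eq_inv_of_mul_eq_one_right h2
  rw [h3]
  simp only [mul_inv_rev, cc_inv]

/-- images of the generators of the surface group -/
def jImg : Fin 4 → Orb := ![cc 0 * cc 1, cc 2 * cc 1, cc 3 * cc 4, cc 5 * cc 4]

theorem j_rel : ∀ r ∈ ({rel} : Set (FreeGroup (Fin 4))), FreeGroup.lift jImg r = 1 := by
  intro r hr
  rw [Set.mem_singleton_iff] at hr
  subst hr
  simp only [rel, map_mul, map_inv, FreeGroup.lift_apply_of, jImg]
  simp only [Matrix.cons_val]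
  simp only [mul_inv_rev, cc_inv, mul_assoc, cc_sq']
  have h := cc_345
  calc cc 0 * (cc 1 * (cc 2 * (cc 0 * (cc 1 * (cc 2 * (cc 3 * (cc 4 * (cc 5 * (cc 3 *
        (cc 4 * cc 5))))))))))
      = cc 0 * (cc 1 * (cc 2 * (cc 0 * (cc 1 * (cc 2 * ((cc 3 * (cc 4 * cc 5)) * (cc 3 *
        (cc 4 * cc 5)))))))) := by simp only [mul_assoc]
    _ = 1 := by
      rw [h]
      simp only [mul_assoc, cc_sq', cc_sq]

/-- the inclusion of the surface group -/
def j : Surf →* Orb := PresentedGroup.toGroup j_rel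

theorem j_gen (i : Fin 4) : j (gen i) = jImg i := PresentedGroup.toGroup.of j_rel

theorem j0 : j (gen 0) = cc 0 * cc 1 := j_gen 0
theorem j1 : j (gen 1) = cc 2 * cc 1 := j_gen 1
theorem j2 : j (gen 2) = cc 3 * cc 4 := j_gen 2
theorem j3 : j (gen 3) = cc 5 * cc 4 := j_gen 3

/-- moving a power of `x = a b` through the involution `a` or `b` -/
theorem move {G : Type*} [Group G] (a b : G) (ha : a * a = 1) (hb : b * b = 1) (e : ℤ) :
    a * (a * b) ^ e = (a * b) ^ (-e) * a ∧ b * (a * b) ^ e = (a * b) ^ (-e) * b := by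
  have hai : a⁻¹ = a := inv_eq_of_mul_eq_one_right ha
  have hbi : b⁻¹ = b := inv_eq_of_mul_eq_one_right hb
  have h1 : a * (a * b) * a⁻¹ = (a * b)⁻¹ := by
    rw [mul_inv_rev, ← mul_assoc, ha, one_mul, hbi]
  have h2 : b * (a * b) * b⁻¹ = (a * b)⁻¹ := by
    rw [mul_inv_rev, mul_assoc, mul_assoc, hbi, hb, mul_one, hai]
  constructor
  · have := congrArg (fun x => x ^ e) h1
    simp only [conj_zpow, inv_zpow'] at this
    rw [← this]; group
  · have := congrArg (fun x => x ^ e) h2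
    simp only [conj_zpow, inv_zpow'] at this
    rw [← this]; group

/-- images of the generators under the lifted twist -/
def sImg (e : ℤ) (i : Fin 5) (k : Fin 6) : Orb :=
  if k = i.castSucc ∨ k = i.succ then (cc i.castSucc * cc i.succ) ^ e * cc k else cc k

theorem s_rel (e : ℤ) (i : Fin 5) : ∀ r ∈ rels6, FreeGroup.lift (sImg e i) r = 1 := by
  have hm := move (cc i.castSucc) (cc i.succ) (cc_sq _) (cc_sq _) e
  intro r hr
  rcases hr with ⟨k, rfl⟩ | rfl
  · simp only [map_mul, FreeGroup.lift_apply_of, sImg]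
    split_ifs with hk
    · rcases hk with rfl | rfl
      · rw [mul_assoc, ← mul_assoc (cc i.castSucc), hm.1, mul_assoc, cc_sq, mul_one,
          ← zpow_add, add_neg_cancel, zpow_zero]
      · rw [mul_assoc, ← mul_assoc (cc i.succ), hm.2, mul_assoc, cc_sq, mul_one,
          ← zpow_add, add_neg_cancel, zpow_zero]
    · exact cc_sq k
  · simp only [map_mul, FreeGroup.lift_apply_of]
    have h2 : sImg e i i.castSucc * sImg e i i.succ = cc i.castSucc * cc i.succ := by
      simp only [sImg, true_or, or_true, if_true]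
      rw [mul_assoc, ← mul_assoc (cc i.castSucc), hm.1, mul_assoc, ← mul_assoc, ← zpow_add,
        add_neg_cancel, zpow_zero, one_mul]
    have h3 : ∀ k : Fin 6, k ≠ i.castSucc → k ≠ i.succ → sImg e i k = cc k := by
      intro k h h'
      simp [sImg, h, h']
    have hp := cc_prod
    fin_cases i
    · change sImg e 0 0 * sImg e 0 1 = cc 0 * cc 1 at h2
      change ∀ k : Fin 6, k ≠ 0 → k ≠ 1 → sImg e 0 k = cc k at h3
      change sImg e 0 0 * sImg e 0 1 * sImg e 0 2 * sImg e 0 3 * sImg e 0 4 * sImg e 0 5 = 1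
      rw [h2, h3 2 (by decide) (by decide), h3 3 (by decide) (by decide),
        h3 4 (by decide) (by decide), h3 5 (by decide) (by decide), hp]
    · change sImg e 1 1 * sImg e 1 2 = cc 1 * cc 2 at h2
      change ∀ k : Fin 6, k ≠ 1 → k ≠ 2 → sImg e 1 k = cc k at h3
      change sImg e 1 0 * sImg e 1 1 * sImg e 1 2 * sImg e 1 3 * sImg e 1 4 * sImg e 1 5 = 1
      rw [mul_assoc (sImg e 1 0), h2, h3 0 (by decide) (by decide), h3 3 (by decide) (by decide),
        h3 4 (by decide) (by decide), h3 5 (by decide) (by decide), ← mul_assoc, hp]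
    · change sImg e 2 2 * sImg e 2 3 = cc 2 * cc 3 at h2
      change ∀ k : Fin 6, k ≠ 2 → k ≠ 3 → sImg e 2 k = cc k at h3
      change sImg e 2 0 * sImg e 2 1 * sImg e 2 2 * sImg e 2 3 * sImg e 2 4 * sImg e 2 5 = 1
      rw [mul_assoc (sImg e 2 0 * sImg e 2 1), h2, h3 0 (by decide) (by decide),
        h3 1 (by decide) (by decide),
        h3 4 (by decide) (by decide), h3 5 (by decide) (by decide), ← mul_assoc, hp]
    · change sImg e 3 3 * sImg e 3 4 = cc 3 * cc 4 at h2
      change ∀ k : Fin 6, k ≠ 3 → k ≠ 4 → sImg e 3 k = cc k at h3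
      change sImg e 3 0 * sImg e 3 1 * sImg e 3 2 * sImg e 3 3 * sImg e 3 4 * sImg e 3 5 = 1
      rw [mul_assoc (sImg e 3 0 * sImg e 3 1 * sImg e 3 2), h2, h3 0 (by decide) (by decide),
        h3 1 (by decide) (by decide),
        h3 2 (by decide) (by decide), h3 5 (by decide) (by decide), ← mul_assoc, hp]
    · change sImg e 4 4 * sImg e 4 5 = cc 4 * cc 5 at h2
      change ∀ k : Fin 6, k ≠ 4 → k ≠ 5 → sImg e 4 k = cc k at h3
      change sImg e 4 0 * sImg e 4 1 * sImg e 4 2 * sImg e 4 3 * sImg e 4 4 * sImg e 4 5 = 1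
      rw [mul_assoc (sImg e 4 0 * sImg e 4 1 * sImg e 4 2 * sImg e 4 3), h2,
        h3 0 (by decide) (by decide), h3 1 (by decide) (by decide),
        h3 2 (by decide) (by decide), h3 3 (by decide) (by decide), ← mul_assoc, hp]

/-- the lift of the `e`-th power of the `i`-th Dehn twist to the orbifold group -/
def Sg (i : Fin 5) (e : ℤ) : Orb →* Orb := PresentedGroup.toGroup (s_rel e i)

theorem Sg_cc (i : Fin 5) (e : ℤ) (k : Fin 6) : Sg i e (cc k) = sImg e i k :=
  PresentedGroup.toGroup.of (s_rel e i)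

theorem twist_gen (i : Fin 5) (e : ℤ) (k : Fin 4) : twist i e (gen k) = twistImg e i k :=
  PresentedGroup.toGroup.of (twist_rel e i)

/-- two homomorphisms from the surface group that agree on the generators are equal -/
theorem surf_hom_ext {G : Type*} [Group G] (f g : Surf →* G)
    (h : ∀ i, f (gen i) = g (gen i)) : f = g :=
  PresentedGroup.ext h

theorem cc_23 : cc 2 * cc 3 = cc 1 * (cc 0 * (cc 5 * cc 4)) := by
  have h := cc_345
  have h2 : cc 2 * cc 3 = cc 2 * ((cc 3 * (cc 4 * cc 5)) * (cc 5 * cc 4)) := by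
    simp only [mul_assoc, cc_sq', cc_sq, mul_one]
  rw [h2, h]
  simp only [mul_assoc, cc_sq']

theorem j_twist (i : Fin 5) (e : ℤ) (γ : Surf) : j (twist i e γ) = Sg i e (j γ) := by
  have key : j.comp (twist i e) = (Sg i e).comp j := by
    apply surf_hom_ext
    intro k
    rw [MonoidHom.comp_apply, MonoidHom.comp_apply, twist_gen, j_gen k]
    have hm := move (cc i.castSucc) (cc i.succ) (cc_sq _) (cc_sq _) e
    have hS1 : Sg i e (cc i.castSucc) = (cc i.castSucc * cc i.succ) ^ e * cc i.castSucc := by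
      rw [Sg_cc]; simp [sImg]
    have hS2 : Sg i e (cc i.succ) = (cc i.castSucc * cc i.succ) ^ e * cc i.succ := by
      rw [Sg_cc]; simp [sImg]
    have hS3 : ∀ k : Fin 6, k ≠ i.castSucc → k ≠ i.succ → Sg i e (cc k) = cc k := by
      intro k h h'
      rw [Sg_cc]; simp [sImg, h, h']
    have hx : Sg i e (cc i.castSucc) * Sg i e (cc i.succ) = cc i.castSucc * cc i.succ := by
      rw [hS1, hS2, mul_assoc, ← mul_assoc (cc i.castSucc), hm.1, mul_assoc, ← mul_assoc,
        ← zpow_add, add_neg_cancel, zpow_zero, one_mul]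
    have hx' : Sg i e (cc i.succ) * Sg i e (cc i.castSucc) = cc i.succ * cc i.castSucc := by
      rw [hS1, hS2, mul_assoc, ← mul_assoc (cc i.succ), hm.2, mul_assoc, ← mul_assoc,
        ← zpow_add, add_neg_cancel, zpow_zero, one_mul]
    fin_cases i
    · change Sg 0 e (cc 0) = (cc 0 * cc 1) ^ e * cc 0 at hS1
      change Sg 0 e (cc 1) = (cc 0 * cc 1) ^ e * cc 1 at hS2
      change ∀ k : Fin 6, k ≠ 0 → k ≠ 1 → Sg 0 e (cc k) = cc k at hS3
      change Sg 0 e (cc 0) * Sg 0 e (cc 1) = cc 0 * cc 1 at hx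
      change cc 0 * (cc 0 * cc 1) ^ e = (cc 0 * cc 1) ^ (-e) * cc 0 ∧
        cc 1 * (cc 0 * cc 1) ^ e = (cc 0 * cc 1) ^ (-e) * cc 1 at hm
      fin_cases k
      · change j (gen 0) = Sg 0 e (cc 0 * cc 1)
        rw [map_mul, hx, j0]
      · change j (gen 1 * gen 0 ^ (-e)) = Sg 0 e (cc 2 * cc 1)
        rw [map_mul, map_mul, map_zpow, j0, j1, hS2, hS3 2 (by decide) (by decide), mul_assoc]
        congr 1
        have := (move (cc 0) (cc 1) (cc_sq _) (cc_sq _) (-e)).2
        rw [this, neg_neg]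
      · change j (gen 2) = Sg 0 e (cc 3 * cc 4)
        rw [map_mul, hS3 3 (by decide) (by decide), hS3 4 (by decide) (by decide), j2]
      · change j (gen 3) = Sg 0 e (cc 5 * cc 4)
        rw [map_mul, hS3 5 (by decide) (by decide), hS3 4 (by decide) (by decide), j3]
    · change Sg 1 e (cc 1) = (cc 1 * cc 2) ^ e * cc 1 at hS1
      change Sg 1 e (cc 2) = (cc 1 * cc 2) ^ e * cc 2 at hS2
      change ∀ k : Fin 6, k ≠ 1 → k ≠ 2 → Sg 1 e (cc k) = cc k at hS3
      change Sg 1 e (cc 2) * Sg 1 e (cc 1) = cc 2 * cc 1 at hx'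
      fin_cases k
      · change j (gen 0 * gen 1 ^ e) = Sg 1 e (cc 0 * cc 1)
        rw [map_mul, map_mul, map_zpow, j0, j1, hS1, hS3 0 (by decide) (by decide), mul_assoc]
        congr 1
        have := (move (cc 1) (cc 2) (cc_sq _) (cc_sq _) (-e)).1
        have h2 : (cc 2 * cc 1) ^ e = (cc 1 * cc 2) ^ (-e) := by
          rw [zpow_neg, ← inv_zpow, mul_inv_rev, cc_inv, cc_inv]
        rw [h2, this, neg_neg]
      · change j (gen 1) = Sg 1 e (cc 2 * cc 1)
        rw [map_mul, hx', j1]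
      · change j (gen 2) = Sg 1 e (cc 3 * cc 4)
        rw [map_mul, hS3 3 (by decide) (by decide), hS3 4 (by decide) (by decide), j2]
      · change j (gen 3) = Sg 1 e (cc 5 * cc 4)
        rw [map_mul, hS3 5 (by decide) (by decide), hS3 4 (by decide) (by decide), j3]
    · change Sg 2 e (cc 2) = (cc 2 * cc 3) ^ e * cc 2 at hS1
      change Sg 2 e (cc 3) = (cc 2 * cc 3) ^ e * cc 3 at hS2
      change ∀ k : Fin 6, k ≠ 2 → k ≠ 3 → Sg 2 e (cc k) = cc k at hS3
      have h4 : j ((gen 0)⁻¹ * gen 3) = cc 2 * cc 3 := by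
        rw [map_mul, map_inv, j0, j3, cc_23, mul_inv_rev, cc_inv, cc_inv]
        simp only [mul_assoc]
      fin_cases k
      · change j (gen 0) = Sg 2 e (cc 0 * cc 1)
        rw [map_mul, hS3 0 (by decide) (by decide), hS3 1 (by decide) (by decide), j0]
      · change j (((gen 0)⁻¹ * gen 3) ^ e * gen 1) = Sg 2 e (cc 2 * cc 1)
        rw [map_mul, map_mul, map_zpow, h4, j1, hS1, hS3 1 (by decide) (by decide), mul_assoc]
      · change j (((gen 0)⁻¹ * gen 3) ^ e * gen 2) = Sg 2 e (cc 3 * cc 4)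
        rw [map_mul, map_mul, map_zpow, h4, j2, hS2, hS3 4 (by decide) (by decide), mul_assoc]
      · change j (gen 3) = Sg 2 e (cc 5 * cc 4)
        rw [map_mul, hS3 5 (by decide) (by decide), hS3 4 (by decide) (by decide), j3]
    · change Sg 3 e (cc 3) = (cc 3 * cc 4) ^ e * cc 3 at hS1
      change Sg 3 e (cc 4) = (cc 3 * cc 4) ^ e * cc 4 at hS2
      change ∀ k : Fin 6, k ≠ 3 → k ≠ 4 → Sg 3 e (cc k) = cc k at hS3
      change Sg 3 e (cc 3) * Sg 3 e (cc 4) = cc 3 * cc 4 at hx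
      fin_cases k
      · change j (gen 0) = Sg 3 e (cc 0 * cc 1)
        rw [map_mul, hS3 0 (by decide) (by decide), hS3 1 (by decide) (by decide), j0]
      · change j (gen 1) = Sg 3 e (cc 2 * cc 1)
        rw [map_mul, hS3 2 (by decide) (by decide), hS3 1 (by decide) (by decide), j1]
      · change j (gen 2) = Sg 3 e (cc 3 * cc 4)
        rw [map_mul, hx, j2]
      · change j (gen 3 * gen 2 ^ (-e)) = Sg 3 e (cc 5 * cc 4)
        rw [map_mul, map_mul, map_zpow, j2, j3, hS2, hS3 5 (by decide) (by decide), mul_assoc]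
        congr 1
        have := (move (cc 3) (cc 4) (cc_sq _) (cc_sq _) (-e)).2
        rw [this, neg_neg]
    · change Sg 4 e (cc 4) = (cc 4 * cc 5) ^ e * cc 4 at hS1
      change Sg 4 e (cc 5) = (cc 4 * cc 5) ^ e * cc 5 at hS2
      change ∀ k : Fin 6, k ≠ 4 → k ≠ 5 → Sg 4 e (cc k) = cc k at hS3
      change Sg 4 e (cc 5) * Sg 4 e (cc 4) = cc 5 * cc 4 at hx'
      fin_cases k
      · change j (gen 0) = Sg 4 e (cc 0 * cc 1)
        rw [map_mul, hS3 0 (by decide) (by decide), hS3 1 (by decide) (by decide), j0]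
      · change j (gen 1) = Sg 4 e (cc 2 * cc 1)
        rw [map_mul, hS3 2 (by decide) (by decide), hS3 1 (by decide) (by decide), j1]
      · change j (gen 2 * gen 3 ^ e) = Sg 4 e (cc 3 * cc 4)
        rw [map_mul, map_mul, map_zpow, j2, j3, hS1, hS3 3 (by decide) (by decide), mul_assoc]
        congr 1
        have := (move (cc 4) (cc 5) (cc_sq _) (cc_sq _) (-e)).1
        have h2 : (cc 5 * cc 4) ^ e = (cc 4 * cc 5) ^ (-e) := by
          rw [zpow_neg, ← inv_zpow, mul_inv_rev, cc_inv, cc_inv]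
        rw [h2, this, neg_neg]
      · change j (gen 3) = Sg 4 e (cc 5 * cc 4)
        rw [map_mul, hx', j3]
  exact DFunLike.congr_fun key γ

/-- the involution `c0` normalises the surface group -/
theorem c0_norm (k : Surf) : ∃ k' : Surf, cc 0 * j k * (cc 0)⁻¹ = j k' := by
  have hcl : k ∈ Subgroup.closure (Set.range (gen : Fin 4 → Surf)) := by
    have : Subgroup.closure (Set.range (gen : Fin 4 → Surf)) = ⊤ :=
      PresentedGroup.closure_range_of _
    rw [this]
    exact Subgroup.mem_top k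
  induction hcl using Subgroup.closure_induction with
  | mem x hx =>
    obtain ⟨i, rfl⟩ := hx
    have hg : j (gen 0 * (gen 1)⁻¹ * (gen 0)⁻¹ * gen 3) = cc 0 * cc 3 := by
      have h := cc_345
      have h3 : cc 3 = (cc 3 * (cc 4 * cc 5)) * (cc 5 * cc 4) := by
        simp only [mul_assoc, cc_sq', cc_sq, mul_one]
      rw [h3, h]
      simp only [map_mul, map_inv, j0, j1, j3, mul_inv_rev, cc_inv, mul_assoc, cc_sq']
    fin_cases i
    · refine ⟨(gen 0)⁻¹, ?_⟩
      change cc 0 * j (gen 0) * (cc 0)⁻¹ = _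
      simp only [map_inv, j0, mul_inv_rev, cc_inv, mul_assoc, cc_sq']
    · refine ⟨gen 0 * (gen 1)⁻¹ * (gen 0)⁻¹, ?_⟩
      change cc 0 * j (gen 1) * (cc 0)⁻¹ = _
      simp only [map_mul, map_inv, j0, j1, mul_inv_rev, cc_inv, mul_assoc, cc_sq']
    · refine ⟨(gen 0 * (gen 1)⁻¹ * (gen 0)⁻¹ * gen 3) * (gen 2)⁻¹ *
        (gen 0 * (gen 1)⁻¹ * (gen 0)⁻¹ * gen 3)⁻¹, ?_⟩
      change cc 0 * j (gen 2) * (cc 0)⁻¹ = _
      rw [map_mul, map_mul, map_inv, map_inv, hg, j2]
      simp only [mul_inv_rev, cc_inv, mul_assoc, cc_sq']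
    · refine ⟨(gen 0 * (gen 1)⁻¹ * (gen 0)⁻¹ * gen 3) * (gen 2 * (gen 3)⁻¹ * (gen 2)⁻¹) *
        (gen 0 * (gen 1)⁻¹ * (gen 0)⁻¹ * gen 3)⁻¹, ?_⟩
      change cc 0 * j (gen 3) * (cc 0)⁻¹ = _
      rw [map_mul, map_mul, map_inv, hg, j3]
      simp only [map_mul, map_inv, j2, j3, mul_inv_rev, cc_inv, mul_assoc, cc_sq']
  | one => exact ⟨1, by simp⟩
  | mul x y _ _ hx hy =>
    obtain ⟨x', hx'⟩ := hx
    obtain ⟨y', hy'⟩ := hy
    refine ⟨x' * y', ?_⟩
    rw [map_mul, map_mul, ← hx', ← hy']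
    group
  | inv x _ hx =>
    obtain ⟨x', hx'⟩ := hx
    refine ⟨x'⁻¹, ?_⟩
    rw [map_inv, map_inv, ← hx']
    group

theorem Sg_c0 (i : Fin 5) (e : ℤ) : ∃ m : Surf, Sg i e (cc 0) = j m * cc 0 := by
  by_cases hi : i = 0
  · subst hi
    refine ⟨gen 0 ^ e, ?_⟩
    rw [Sg_cc, map_zpow, j0]
    simp [sImg]
  · refine ⟨1, ?_⟩
    rw [Sg_cc, map_one, one_mul]
    have h1 : (0 : Fin 6) ≠ i.castSucc := by
      intro h
      apply hi
      apply Fin.ext
      have := congrArg Fin.val h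
      simpa using this.symm
    have h2 : (0 : Fin 6) ≠ i.succ := (Fin.succ_ne_zero i).symm
    simp [sImg, h1, h2]

end PartC

open PartC in
theorem part_C : S_C := by
  refine ⟨j, j0, j1, j2, j3, ?_⟩
  intro γ hγ
  induction hγ with
  | one => exact ⟨1, Or.inl (by simp)⟩
  | nonsep =>
    refine ⟨1, Or.inr ?_⟩
    rw [one_mul, inv_one, mul_one, map_inv, j0]
    simp only [mul_inv_rev, cc_inv, mul_assoc, cc_sq']
  | sep =>
    refine ⟨(gen 1)⁻¹, Or.inl ?_⟩
    simp only [map_mul, map_inv, j0, j1, mul_inv_rev, cc_inv, mul_assoc, cc_sq', cc_sq, mul_one,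
      inv_inv]
  | conj γ h _ ih =>
    obtain ⟨k, hk⟩ := c0_norm h
    obtain ⟨m, hm⟩ := ih
    refine ⟨k * m * h⁻¹, ?_⟩
    rcases hm with hm | hm
    · left
      have e1 : cc 0 * j (h * γ * h⁻¹) * (cc 0)⁻¹ =
          (cc 0 * j h * (cc 0)⁻¹) * (cc 0 * j γ * (cc 0)⁻¹) * (cc 0 * j h * (cc 0)⁻¹)⁻¹ := by
        simp only [map_mul, map_inv]; group
      rw [e1, hk, hm, ← map_inv, ← map_mul, ← map_mul]
      congr 1; group
    · right
      have e1 : cc 0 * j (h * γ * h⁻¹) * (cc 0)⁻¹ =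
          (cc 0 * j h * (cc 0)⁻¹) * (cc 0 * j γ * (cc 0)⁻¹) * (cc 0 * j h * (cc 0)⁻¹)⁻¹ := by
        simp only [map_mul, map_inv]; group
      rw [e1, hk, hm, ← map_inv, ← map_mul, ← map_mul]
      congr 1; group
  | twist i e γ _ ih =>
    obtain ⟨m, hm⟩ := ih
    obtain ⟨n, hn⟩ := Sg_c0 i e
    refine ⟨n⁻¹ * twist i e m, ?_⟩
    rcases hm with hm | hm
    · left
      have e1 := congrArg (Sg i e) hm
      rw [map_mul, map_mul, map_inv, hn, ← j_twist, ← j_twist] at e1
      have e2 : cc 0 * j (twist i e γ) * (cc 0)⁻¹ =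
          (j n)⁻¹ * (j n * cc 0 * j (twist i e γ) * (j n * cc 0)⁻¹) * j n := by group
      rw [e2, e1]
      simp only [map_mul, map_inv]
      group
    · right
      have e1 := congrArg (Sg i e) hm
      rw [map_mul, map_mul, map_inv, hn, ← j_twist, ← j_twist] at e1
      have e2 : cc 0 * j (twist i e γ) * (cc 0)⁻¹ =
          (j n)⁻¹ * (j n * cc 0 * j (twist i e γ) * (j n * cc 0)⁻¹) * j n := by group
      rw [e2, e1]
      simp only [map_mul, map_inv]
      group

namespace PartC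

/-- a homomorphism to the symmetric group on three letters -/
def pImg : Fin 4 → Equiv.Perm (Fin 3) :=
  ![Equiv.swap 0 1, Equiv.swap 1 2, Equiv.swap 1 2, Equiv.swap 0 1]

theorem p_rel : ∀ r ∈ ({rel} : Set (FreeGroup (Fin 4))), FreeGroup.lift pImg r = 1 := by
  intro r hr
  rw [Set.mem_singleton_iff] at hr
  subst hr
  simp only [rel, map_mul, map_inv, FreeGroup.lift_apply_of, pImg]
  decide

def pHom : Surf →* Equiv.Perm (Fin 3) := PresentedGroup.toGroup p_rel

theorem p_gen (i : Fin 4) : pHom (gen i) = pImg i := PresentedGroup.toGroup.of p_rel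

end PartC

open PartC in
theorem part_N : S_N := by
  refine ⟨fun h => ?_, fun h => ?_, fun h => ?_⟩
  · have := congrArg pHom h
    rw [p_gen, map_one] at this
    revert this
    decide
  · have := congrArg pHom h
    rw [p_gen, map_one] at this
    revert this
    decide
  · have := congrArg pHom h
    simp only [map_mul, map_inv, p_gen, map_one] at this
    revert this
    decide

end P8H97.HR
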